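import Pool.Agent.REV.StmtsG
import Pool.Agent.BPH.Sta
import Pool.Agent.BPH.Sph

/-!
# Squad REV, row AVE: a zonal start density
-/

set_option autoImplicit false

namespace Pool.Agent.REV.H39

open MeasureTheory Module Set Filter
open scoped RealInnerProductSpace Pointwise Topology ENNReal
open Pool.Agent.BPH Pool.Agent.Helper55_PB Pool.Agent.Helper28_PB Pool.Agent.REV

section

variable {E : Type} [NormedAddCommGroup E] [InnerProductSpace ℝ E] [FiniteDimensional ℝ E]
  [MeasurableSpace E] [BorelSpace E] [Nontrivial E]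

/-- the truncated test function gives the support function of the zonoid -/
theorem int_min (sp : SPH) (w : E) (f : E → ℝ) :
    ∫ x, min |⟪w, x⟫| ‖w‖ * f x ∂sph E = hz f w := by
  unfold hz
  refine integral_congr_ae ?_
  filter_upwards [sp.norm (E := E)] with x hx
  rw [min_eq_of_norm w hx.le]

theorem int_min_iso (sp : SPH) (w : E) (f : E → ℝ) (T : E ≃ₗᵢ[ℝ] E) :
    ∫ x, min |⟪w, T x⟫| ‖w‖ * f x ∂sph E = hz f (T.symm w) := by
  rw [← int_min sp]
  refine integral_congr_ae (Eventually.of_forall fun x => ?_)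
  show min |⟪w, T x⟫| ‖w‖ * f x = min |⟪T.symm w, x⟫| ‖T.symm w‖ * f x
  have h1 : ⟪w, T x⟫ = ⟪T.symm w, x⟫ := by
    have h2 := T.symm.inner_map_map w (T x)
    rw [T.symm_apply_apply] at h2
    exact h2.symm
  rw [h1, T.symm.norm_map]

end

/-- row AVE -/
theorem ave (avm : AvmStmt) (avi : AviStmt) : AveStmt := by
  intro E _ _ _ _ _ _ K h2 hK h0 hZ e he hs
  obtain ⟨C, hC1, hC⟩ := sta_of sph_facts K hK h0 hZ
  refine ⟨C, hC1, fun δ hδ hδ1 => ?_⟩
  obtain ⟨f, t, hf, ht, hfC, hw⟩ := hC δ hδ hδ1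
  obtain ⟨hm, hb⟩ := avm e f hf.meas hf.nonneg (C / δ ^ finrank ℝ E) hfC
  have key := avi (E := E) h2 e he f hf.meas hf.nonneg hf.bdd
  refine ⟨av e f, t, ⟨?_, fun x => (hb _).1, ⟨C / δ ^ finrank ℝ E, fun x => (hb _).2⟩, ?_⟩, ht,
    fun τ => (hb τ).1, fun τ => (hb τ).2, fun w => ?_⟩
  · exact hm.comp (by fun_prop)
  · have h1 := key (fun _ => 1) ⟨measurable_const, 1, fun _ => by norm_num⟩ 1 1 (by
      intro T _
      simp only [one_mul]
      exact ⟨hf.int.ge, hf.int.le⟩)
    simp only [one_mul] at h1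
    exact le_antisymm h1.2 h1.1
  · have hexp : 0 < Real.exp δ := Real.exp_pos δ
    have hexp' : 0 < Real.exp (-δ) := Real.exp_pos (-δ)
    have hee : Real.exp δ * Real.exp (-δ) = 1 := by
      rw [← Real.exp_add, add_neg_cancel, Real.exp_zero]
    have h1 := key (fun x => min |⟪w, x⟫| ‖w‖) (tst_min w)
      (Real.exp (-δ) * supportFn K w / t) (Real.exp δ * supportFn K w / t) (by
      intro T hT
      have hT' : T.symm e = e ∨ T.symm e = -e := by
        rcases hT with hT | hT
        · left
          rw [T.symm_apply_eq, hT]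
        · right
          rw [T.symm_apply_eq, map_neg, hT, neg_neg]
      have h3 := hs T.symm hT' w
      obtain ⟨h4, h5⟩ := hw (T.symm w)
      rw [h3] at h4 h5
      have h6 : ∫ x, min |⟪w, T x⟫| ‖w‖ * f x ∂sph E = hz f (T.symm w) :=
        int_min_iso sph_facts w f T
      rw [h6]
      constructor
      · rw [div_le_iff₀ ht]
        calc Real.exp (-δ) * supportFn K w
            ≤ Real.exp (-δ) * (Real.exp δ * (t * hz f (T.symm w))) :=
              mul_le_mul_of_nonneg_left h5 hexp'.le
          _ = (Real.exp δ * Real.exp (-δ)) * (hz f (T.symm w) * t) := by ring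
          _ = hz f (T.symm w) * t := by rw [hee, one_mul]
      · rw [le_div_iff₀ ht]
        calc hz f (T.symm w) * t
            = (Real.exp δ * Real.exp (-δ)) * (t * hz f (T.symm w)) := by rw [hee]; ring
          _ = Real.exp δ * (Real.exp (-δ) * (t * hz f (T.symm w))) := by ring
          _ ≤ Real.exp δ * supportFn K w := mul_le_mul_of_nonneg_left h4 hexp.le)
    obtain ⟨h7, h8⟩ := h1
    have h9 : ∫ x, min |⟪w, x⟫| ‖w‖ * av e f |⟪e, x⟫| ∂sph E =
        hz (fun x : E => av e f |⟪e, x⟫|) w := int_min sph_facts w _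
    rw [h9, div_le_iff₀ ht] at h7
    rw [h9, le_div_iff₀ ht] at h8
    constructor
    · calc Real.exp (-δ) * (t * hz (fun x : E => av e f |⟪e, x⟫|) w)
          = Real.exp (-δ) * (hz (fun x : E => av e f |⟪e, x⟫|) w * t) := by ring
        _ ≤ Real.exp (-δ) * (Real.exp δ * supportFn K w) :=
            mul_le_mul_of_nonneg_left h8 hexp'.le
        _ = (Real.exp δ * Real.exp (-δ)) * supportFn K w := by ring
        _ = supportFn K w := by rw [hee, one_mul]
    · calc supportFn K w = (Real.exp δ * Real.exp (-δ)) * supportFn K w := by rw [hee, one_mul]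
        _ = Real.exp δ * (Real.exp (-δ) * supportFn K w) := by ring
        _ ≤ Real.exp δ * (hz (fun x : E => av e f |⟪e, x⟫|) w * t) :=
            mul_le_mul_of_nonneg_left h7 hexp.le
        _ = Real.exp δ * (t * hz (fun x : E => av e f |⟪e, x⟫|) w) := by ring

end Pool.Agent.REV.H39
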