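import Pool.Agent.REV.StmtsU
import Pool.Agent.Helper65_REV.TAU

/-!
# Squad REV, row SAL: a strict inequality at `c = 1`
-/

set_option autoImplicit false

namespace Pool.Agent.REV.H39

open Set Filter
open scoped Topology
open Pool.Agent.REV

theorem ta_zero (g c : ℝ) : ta g c 0 = 0 := by
  unfold ta
  rw [zero_mul, zero_div]

theorem ta_one_one (g : ℝ) : ta g 1 1 = 1 := by
  unfold ta
  have : 1 + (g - 1) * 1 ^ 2 * (1 - 1 ^ 2) = 1 := by ring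
  rw [this, Real.sqrt_one]
  norm_num

theorem ta_cont {g c : ℝ} (hg : 0 < g) (hc0 : 0 ≤ c) (hc1 : c ≤ 1) :
    ContinuousOn (ta g c) (Icc 0 1) := by
  have h1 : ∀ ρ ∈ Icc (0 : ℝ) 1, Real.sqrt (1 + (g - 1) * c ^ 2 * (1 - ρ ^ 2)) ≠ 0 := by
    intro ρ hρ
    exact (Real.sqrt_pos.2 ((H65.tau g hg).1 c ρ hc0 hc1 hρ.1 hρ.2).1).ne'
  unfold ta
  exact ContinuousOn.div (by fun_prop) (by fun_prop) h1

/-- row SAL -/
theorem sal (kst : KstStmt) (jel : JelStmt) (cva : CvaStmt) (cvb : CvbStmt) (elc : ElcStmt) :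
    SalStmt := by
  intro n C A f hn hf hA hLow
  obtain ⟨g, hg⟩ : ∃ g : ℝ, g = 1 + A := ⟨_, rfl⟩
  rw [← hg] at hLow ⊢
  have hg0 : 0 < g := by linarith
  have hT := H65.tau g hg0
  obtain ⟨hJc, hJi⟩ := jel n g 1 f hn hg0 zero_le_one le_rfl hf.cont
  have hmem : ∀ ρ ∈ Icc (0 : ℝ) 1, ta g 1 ρ ∈ Icc (0 : ℝ) 1 := fun ρ hρ =>
    (hT.1 1 ρ zero_le_one le_rfl hρ.1 hρ.2).2.2
  have hanti : AntitoneOn (fun ρ => -El n g f (ta g 1 ρ)) (Icc 0 1) := by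
    intro x hx y hy hxy
    show -El n g f (ta g 1 y) ≤ -El n g f (ta g 1 x)
    have h1 := hLow (hmem x hx) (hmem y hy) (hT.2.2 1 x y zero_le_one le_rfl hx.1 hxy hy.2)
    linarith
  have hne : ∃ x ∈ Icc (0 : ℝ) 1, ∃ y ∈ Icc (0 : ℝ) 1,
      (fun ρ => -El n g f (ta g 1 ρ)) x ≠ (fun ρ => -El n g f (ta g 1 ρ)) y := by
    by_contra hcon
    push Not at hcon
    have h0 : (0 : ℝ) ∈ Icc (0 : ℝ) 1 := ⟨le_rfl, zero_le_one⟩
    have h1 : g = 1 := by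
      apply elc n C g f hn hf hg0
      intro t ht
      have hivt := intermediate_value_Icc (zero_le_one) (ta_cont hg0 zero_le_one le_rfl (c := 1))
      rw [ta_zero, ta_one_one] at hivt
      obtain ⟨ρ, hρ, hρt⟩ := hivt ht
      have h2 := hcon ρ hρ 0 h0
      simp only [ta_zero, hρt] at h2
      exact neg_injective h2
    rw [hg] at h1
    linarith
  have hpos := kst n (fun ρ => -El n g f (ta g 1 ρ)) hn hanti hJc.neg hne
  have hneg : ∫ r in (0 : ℝ)..1, kk n r * (fun ρ => -El n g f (ta g 1 ρ)) r =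
      -(RA' n g f 1 - ((n : ℝ) - 2) * RB' n g f 1) := by
    rw [← hJi, ← intervalIntegral.integral_neg]
    refine intervalIntegral.integral_congr (fun r _ => ?_)
    show kk n r * -El n g f (ta g 1 r) = -(kk n r * El n g f (ta g 1 r))
    ring
  rw [hneg] at hpos
  have hA' : RA' n g f 1 < ((n : ℝ) - 2) * RB' n g f 1 := by linarith
  have e1 : 1 + (g - 1) * (1 : ℝ) ^ 2 = g := by ring
  have hRA := cva n g 1 f hn hg0 zero_le_one le_rfl
  have hRB := cvb n g 1 f hn hg0 zero_le_one le_rfl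
  rw [e1] at hRA hRB
  have hp : 0 < g ^ (-(1 / 2) : ℝ) := Real.rpow_pos_of_pos hg0 _
  have hq : g * g ^ (-(3 / 2) : ℝ) = g ^ (-(1 / 2) : ℝ) := by
    have h1 : g ^ (1 + -(3 / 2) : ℝ) = g ^ (1 : ℝ) * g ^ (-(3 / 2) : ℝ) := Real.rpow_add hg0 _ _
    rw [Real.rpow_one] at h1
    rw [← h1]
    congr 1
    norm_num
  rw [hRA, hRB]
  calc g ^ (-(1 / 2) : ℝ) * RA' n g f 1 < g ^ (-(1 / 2) : ℝ) * (((n : ℝ) - 2) * RB' n g f 1) :=
        mul_lt_mul_of_pos_left hA' hp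
    _ = g * g ^ (-(3 / 2) : ℝ) * (((n : ℝ) - 2) * RB' n g f 1) := by rw [hq]
    _ = g * (((n : ℝ) - 2) * (g ^ (-(3 / 2) : ℝ) * RB' n g f 1)) := by ring

end Pool.Agent.REV.H39
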