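import Pool.Agent.REV.StmtsU

/-!
# Squad REV, row WLM: an elementary monotone function
-/

set_option autoImplicit false

namespace Pool.Agent.REV.H39

open Set Filter
open scoped Topology
open Pool.Agent.REV

/-- the algebraic inequality behind WLM -/
theorem wlm_alg {m κ κ1 x s : ℝ} (hm : 4 ≤ m) (hκ : 0 < κ) (hκ1 : κ < κ1) (hx : 0 ≤ x)
    (hs : s = (m - 2) * (κ1 - κ) * κ / ((m + 1) * κ1)) :
    0 ≤ (m + 1) / 2 * (1 / (κ + s + x)) + -(3 / 2) * (1 / (κ + x)) +
      -((m - 2) / 2) * (1 / (κ1 + x)) := by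
  have hκ1' : 0 < κ1 := hκ.trans hκ1
  have hm1 : 0 < m + 1 := by linarith
  have hs0 : 0 ≤ s := by
    rw [hs]
    have h1 : 0 ≤ m - 2 := by linarith
    have h2 : 0 ≤ κ1 - κ := by linarith
    positivity
  have hs1 : s * ((m + 1) * κ1) = (m - 2) * (κ1 - κ) * κ := by
    rw [hs]
    field_simp
  have hu : 0 < κ + x := by linarith
  have hv : 0 < κ1 + x := by linarith
  have hus : 0 < κ + s + x := by linarith
  -- the main inequality
  have key : (κ + s + x) * (3 * (κ1 + x) + (m - 2) * (κ + x)) ≤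
      (m + 1) * ((κ + x) * (κ1 + x)) := by
    have h1 : s * ((m + 1) * (κ1 + x)) ≤ (m - 2) * (κ + x) * (κ1 - κ) := by
      have h2 : κ1 * (s * ((m + 1) * (κ1 + x))) ≤ κ1 * ((m - 2) * (κ + x) * (κ1 - κ)) := by
        have h3 : κ1 * (s * ((m + 1) * (κ1 + x))) = (m - 2) * (κ1 - κ) * κ * (κ1 + x) := by
          calc κ1 * (s * ((m + 1) * (κ1 + x))) = s * ((m + 1) * κ1) * (κ1 + x) := by ring
            _ = _ := by rw [hs1]
        rw [h3]
        have h4 : 0 ≤ (m - 2) * (κ1 - κ) := mul_nonneg (by linarith) (by linarith)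
        have h5 : κ * (κ1 + x) ≤ κ1 * (κ + x) := by nlinarith
        calc (m - 2) * (κ1 - κ) * κ * (κ1 + x) = (m - 2) * (κ1 - κ) * (κ * (κ1 + x)) := by ring
          _ ≤ (m - 2) * (κ1 - κ) * (κ1 * (κ + x)) := mul_le_mul_of_nonneg_left h5 h4
          _ = _ := by ring
      exact le_of_mul_le_mul_left h2 hκ1'
    have h6 : s * (3 * (κ1 + x) + (m - 2) * (κ + x)) ≤ s * ((m + 1) * (κ1 + x)) := by
      apply mul_le_mul_of_nonneg_left _ hs0
      have h7 : (m - 2) * (κ + x) ≤ (m - 2) * (κ1 + x) :=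
        mul_le_mul_of_nonneg_left (by linarith) (by linarith)
      linarith
    have h8 : (m + 1) * ((κ + x) * (κ1 + x)) -
        (κ + x) * (3 * (κ1 + x) + (m - 2) * (κ + x)) = (m - 2) * (κ + x) * (κ1 - κ) := by ring
    have h9 : (κ + s + x) * (3 * (κ1 + x) + (m - 2) * (κ + x)) =
        (κ + x) * (3 * (κ1 + x) + (m - 2) * (κ + x)) +
          s * (3 * (κ1 + x) + (m - 2) * (κ + x)) := by ring
    linarith
  have e : (m + 1) / 2 * (1 / (κ + s + x)) + -(3 / 2) * (1 / (κ + x)) +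
      -((m - 2) / 2) * (1 / (κ1 + x)) =
      ((m + 1) * ((κ + x) * (κ1 + x)) - (κ + s + x) * (3 * (κ1 + x) + (m - 2) * (κ + x))) /
        (2 * (κ + s + x) * (κ + x) * (κ1 + x)) := by
    field_simp
    ring
  rw [e]
  apply div_nonneg
  · linarith
  · positivity

/-- row WLM -/
theorem wlm : WlmStmt := by
  intro n b b1 hn hb hbb hb1
  have hnR : (4 : ℝ) ≤ n := by exact_mod_cast hn
  have hb' : 0 < 1 - b := by linarith
  have hb1' : 0 < 1 - b1 := by linarith
  have hb10 : 0 < b1 := hb.trans hbb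
  obtain ⟨κ, hκ⟩ : ∃ κ, κ = b / (1 - b) := ⟨_, rfl⟩
  obtain ⟨κ1, hκ1⟩ : ∃ κ1, κ1 = b1 / (1 - b1) := ⟨_, rfl⟩
  have hκ0 : 0 < κ := by rw [hκ]; positivity
  have hκκ : κ < κ1 := by
    rw [hκ, hκ1, div_lt_div_iff₀ hb' hb1']
    nlinarith
  obtain ⟨s, hs⟩ : ∃ s, s = ((n : ℝ) - 2) * (κ1 - κ) * κ / (((n : ℝ) + 1) * κ1) := ⟨_, rfl⟩
  have hκ10 : 0 < κ1 := hκ0.trans hκκ
  have hs0 : 0 < s := by
    rw [hs]
    have h1 : 0 < (n : ℝ) - 2 := by linarith
    have h2 : 0 < κ1 - κ := by linarith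
    positivity
  have hks : 0 < κ + s := by linarith
  refine ⟨1 + 1 / (κ + s), ?_, ?_, ?_⟩
  · have : 0 < 1 / (κ + s) := by positivity
    linarith
  · have h1 : 1 / (κ + s) < 1 / κ := one_div_lt_one_div_of_lt hκ0 (by linarith)
    have h2 : 1 / b = 1 + 1 / κ := by
      rw [hκ]
      field_simp
      ring
    rw [h2]
    linarith
  · have e0 : 1 + 1 / (κ + s) - 1 = 1 / (κ + s) := by ring
    rw [e0]
    have p1 : ∀ x ∈ Icc (0 : ℝ) 1, 0 < 1 + 1 / (κ + s) * x := by
      intro x hx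
      have : 0 ≤ 1 / (κ + s) * x := mul_nonneg (by positivity) hx.1
      linarith
    have p2 : ∀ x ∈ Icc (0 : ℝ) 1, 0 < b + (1 - b) * x := by
      intro x hx
      have : 0 ≤ (1 - b) * x := mul_nonneg hb'.le hx.1
      linarith
    have p3 : ∀ x ∈ Icc (0 : ℝ) 1, 0 < b1 + (1 - b1) * x := by
      intro x hx
      have : 0 ≤ (1 - b1) * x := mul_nonneg hb1'.le hx.1
      linarith
    obtain ⟨L, hL⟩ : ∃ L : ℝ → ℝ, L = fun x => ((n : ℝ) + 1) / 2 *
        Real.log (1 + 1 / (κ + s) * x) + -(3 / 2) * Real.log (b + (1 - b) * x) +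
        -(((n : ℝ) - 2) / 2) * Real.log (b1 + (1 - b1) * x) := ⟨_, rfl⟩
    have hd : ∀ x ∈ Icc (0 : ℝ) 1, HasDerivAt L (((n : ℝ) + 1) / 2 * (1 / (κ + s + x)) +
        -(3 / 2) * (1 / (κ + x)) + -(((n : ℝ) - 2) / 2) * (1 / (κ1 + x))) x := by
      intro x hx
      have a1 : HasDerivAt (fun x : ℝ => Real.log (1 + 1 / (κ + s) * x)) (1 / (κ + s + x)) x := by
        have h1 : HasDerivAt (fun x : ℝ => 1 + 1 / (κ + s) * x) (1 / (κ + s)) x := by
          have := ((hasDerivAt_id x).const_mul (1 / (κ + s))).const_add 1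
          simpa using this
        have h2 := h1.log (p1 x hx).ne'
        have h3 : 1 / (κ + s) / (1 + 1 / (κ + s) * x) = 1 / (κ + s + x) := by
          have h4 := (p1 x hx).ne'
          have h5 : 1 + 1 / (κ + s) * x = (κ + s + x) / (κ + s) := by field_simp
          rw [h5]
          field_simp
        rw [h3] at h2
        exact h2
      have a2 : HasDerivAt (fun x : ℝ => Real.log (b + (1 - b) * x)) (1 / (κ + x)) x := by
        have h1 : HasDerivAt (fun x : ℝ => b + (1 - b) * x) (1 - b) x := by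
          have := ((hasDerivAt_id x).const_mul (1 - b)).const_add b
          simpa using this
        have h2 := h1.log (p2 x hx).ne'
        have h3 : (1 - b) / (b + (1 - b) * x) = 1 / (κ + x) := by
          have h5 : b + (1 - b) * x = (1 - b) * (κ + x) := by
            rw [hκ]
            field_simp
          rw [h5]
          have h6 : κ + x ≠ 0 := by have := hx.1; positivity
          field_simp
        rw [h3] at h2
        exact h2
      have a3 : HasDerivAt (fun x : ℝ => Real.log (b1 + (1 - b1) * x)) (1 / (κ1 + x)) x := by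
        have h1 : HasDerivAt (fun x : ℝ => b1 + (1 - b1) * x) (1 - b1) x := by
          have := ((hasDerivAt_id x).const_mul (1 - b1)).const_add b1
          simpa using this
        have h2 := h1.log (p3 x hx).ne'
        have h3 : (1 - b1) / (b1 + (1 - b1) * x) = 1 / (κ1 + x) := by
          have h5 : b1 + (1 - b1) * x = (1 - b1) * (κ1 + x) := by
            rw [hκ1]
            field_simp
          rw [h5]
          have h6 : κ1 + x ≠ 0 := by have := hx.1; positivity
          field_simp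
        rw [h3] at h2
        exact h2
      rw [hL]
      exact ((a1.const_mul _).add (a2.const_mul _)).add (a3.const_mul _)
    have hmono : MonotoneOn L (Icc 0 1) := by
      refine monotoneOn_of_deriv_nonneg (convex_Icc 0 1)
        (fun x hx => (hd x hx).continuousAt.continuousWithinAt) ?_ ?_
      · intro x hx
        exact (hd x (interior_subset hx)).differentiableAt.differentiableWithinAt
      · intro x hx
        rw [(hd x (interior_subset hx)).deriv]
        exact wlm_alg hnR hκ0 hκκ (interior_subset hx).1 hs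
    have hF : ∀ x ∈ Icc (0 : ℝ) 1, (1 + 1 / (κ + s) * x) ^ (((n : ℝ) + 1) / 2) *
        ((b + (1 - b) * x) ^ (-(3 / 2) : ℝ) * (b1 + (1 - b1) * x) ^ (-(((n : ℝ) - 2) / 2))) =
        Real.exp (L x) := by
      intro x hx
      rw [Real.rpow_def_of_pos (p1 x hx), Real.rpow_def_of_pos (p2 x hx),
        Real.rpow_def_of_pos (p3 x hx), ← Real.exp_add, ← Real.exp_add, hL]
      congr 1
      ring
    intro x hx y hy hxy
    show (1 + 1 / (κ + s) * x) ^ (((n : ℝ) + 1) / 2) *
        ((b + (1 - b) * x) ^ (-(3 / 2) : ℝ) * (b1 + (1 - b1) * x) ^ (-(((n : ℝ) - 2) / 2))) ≤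
        (1 + 1 / (κ + s) * y) ^ (((n : ℝ) + 1) / 2) *
        ((b + (1 - b) * y) ^ (-(3 / 2) : ℝ) * (b1 + (1 - b1) * y) ^ (-(((n : ℝ) - 2) / 2)))
    rw [hF x hx, hF y hy]
    exact Real.exp_le_exp.2 (hmono hx hy hxy)

end Pool.Agent.REV.H39
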